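import Pool.Agent.MNE.StmtsD

/-!
# Squad MNE, row FIX (helper91): finitely many solutions for fixed exponents
-/

set_option autoImplicit false

namespace Pool.Agent.MNE

theorem Fix_proof (hRed : RedStmt) (hBra : BraStmt) (hFac : FacStmt) (hMoh : MohStmt)
    (hCmb : CmbStmt) : FixStmt := by
  intro x y z
  by_contra hinf
  obtain ⟨κ, c, σ, M, n, q, hPar, hS⟩ := hRed x y z hinf
  obtain ⟨h, P, Q, l, hBr, hLim⟩ := hBra κ c σ M n q _ hPar hS (fun p hp => hp)
  obtain ⟨H, H2, hF, hmon, hdeg, hev⟩ := hFac h M n P Q σ c κ l hBr hLim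
  exact hCmb h M n P Q σ c κ H H2 hBr hF hmon hdeg
    (hMoh h M n P Q σ c κ l hBr hLim H hmon hdeg hev)

end Pool.Agent.MNE
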